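import Mathlib
import Pool.Agent.W854.HW.Final

set_option autoImplicit false

/-!
# No Tracy-Widom limit for Howitt-Warren flows with small finite speeds

The definitions (the Howitt-Warren martingale problem, stochastic flows of kernels, Howitt-Warren
flows, `speed`, `Converges`) are in `Pool.Agent.W854.HW.Defs`.

If the sum `speed ν = 2 ∫ (1/q + 1/(1-q)) ν(dq)` of the two speeds of the flow is at most `1/64`
(for instance `ν = δ_{1/2} / 512`), then at a large time `t` the random measure `K_{0,t}(0, ·)` gives
no mass at all to `[a, a+1]` with a probability which is bounded below on average over `a`. Hence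
for almost every `x` the quantity `-log K_{0,t}(0, [tx, tx+1])` is `+∞` with a probability that does
not tend to `0`, and no centring `c t` and scaling `σ t^{1/3}` give convergence in distribution to
a real random variable, in particular not to the Tracy-Widom GUE distribution.
-/

open MeasureTheory ProbabilityTheory Filter Topology Set
open scoped NNReal ENNReal

namespace Pool.Agent.Results.MP_b213bc_pr.FiniteSpeedGaps

open Pool.Agent.W854.HW

/-- **Theorem.** For every `β`, every characteristic measure `ν` with `speed ν ≤ 1/64` (for instance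
`ν = δ_{1/2} / 512`), every Howitt-Warren flow `K` with drift `β` and characteristic measure `ν` and
almost every `x`: for no `c`, `σ ≠ 0` and no probability measure `χ` on `ℝ` does
`(-log K_{0,t}(0,[tx,tx+1]) - c t) / (σ t^{1/3})` converge in distribution to `χ`. -/
theorem result :
    (∀ (β : ℝ) (ν : Measure ℝ), speed ν ≤ ENNReal.ofReal (1 / 64) →
      ∀ (Ω : Type) (mΩ : MeasurableSpace Ω) (P : Measure Ω) (_ : IsProbabilityMeasure P)
        (K : ℝ → ℝ → Kernel (Ω × ℝ) ℝ), IsHowittWarrenFlow β ν P K →
        ∀ᵐ x : ℝ, ∀ (c σ : ℝ) (χ : Measure ℝ), σ ≠ 0 → IsProbabilityMeasure χ →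
          ¬ Converges P K x c σ χ) ∧
    speed (ENNReal.ofReal (1 / 512) • Measure.dirac (1 / 2 : ℝ)) ≤ ENNReal.ofReal (1 / 64) :=
  ⟨fun β ν hν Ω mΩ P hP K hK => final_flow β ν hν Ω mΩ P hP K hK, speed_ex⟩

end Pool.Agent.Results.MP_b213bc_pr.FiniteSpeedGaps
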